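import Pool.Agent.N290.RL.Stm

/-!
# Project RL: the numbers `s` and `w`
-/

set_option autoImplicit false

open Complex MeasureTheory Set Filter Topology

namespace Pool.Agent.N293.RL

open Pool.Agent.N290.RJ Pool.Agent.N290.RK Pool.Agent.N290.RL

theorem num16 {s : ℝ} (hs0 : 0 ≤ s) (hs1 : s ≤ 1) : (1 + s / 32) ^ 16 ≤ 1 + s := by
  have h1 : 1 + s / 32 ≤ Real.exp (s / 32) := by
    have := Real.add_one_le_exp (s / 32)
    linarith
  have h2 : (1 + s / 32) ^ 16 ≤ Real.exp (s / 2) := by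
    calc (1 + s / 32) ^ 16 ≤ Real.exp (s / 32) ^ 16 :=
          pow_le_pow_left₀ (by positivity) h1 16
      _ = Real.exp (s / 2) := by
          rw [← Real.exp_nat_mul]
          congr 1
          push_cast
          ring
  have h3 : Real.exp (s / 2) ≤ 1 + s := by
    have h4 : 1 - s / 2 ≤ Real.exp (-(s / 2)) := by
      have := Real.add_one_le_exp (-(s / 2))
      linarith
    have h5 : 0 < 1 - s / 2 := by linarith
    have h6 : Real.exp (s / 2) ≤ (1 - s / 2)⁻¹ := by
      rw [← neg_neg (s / 2), Real.exp_neg]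
      simp only [neg_neg]
      exact inv_anti₀ h5 h4
    refine h6.trans ?_
    rw [inv_le_iff_one_le_mul₀ h5]
    nlinarith
  exact h2.trans h3

theorem YN_of (d : ℕ) (h2 : S2 d) : YN d := by
  intro z hz j
  have hn := nm_nonneg z
  have hx := x_pos hz
  have hr0 : 0 ≤ rad j := rad_nonneg j
  have hr1 : rad j ≤ 1 := (rad_lt_one j).le
  have hr1' : rad (j + 1) ≤ 1 := (rad_lt_one (j + 1)).le
  have hrr : rad (j + 1) - rad j = (1 / 2) ^ (j + 1) := rad_succ j
  have hpos : (0 : ℝ) < (1 / 2) ^ (j + 1) := by positivity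
  have hrp := r_pos hz hr1
  have hrp' := r_pos hz hr1'
  have hs0 : 0 ≤ st j z := div_nonneg (mul_nonneg (by linarith) hn) hrp'.le
  have hs1 : st j z ≤ 1 := by
    unfold st
    rw [div_le_one hrp']
    have h5 : rad (j + 1) = 1 - (1 / 2) ^ (j + 1) := rfl
    rw [hrr, h5]
    nlinarith
  have hw0 : ∀ i : ℕ, 0 < ww z i := fun i =>
    Real.rpow_pos_of_pos (div_pos hx (r_pos hz (rad_lt_one i).le)) _
  have hw16 : ∀ i : ℕ, ww z i ^ 16 = (1 - nm z) / (1 - rad i * nm z) := by
    intro i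
    unfold ww
    rw [← Real.rpow_natCast, ← Real.rpow_mul (div_pos hx (r_pos hz (rad_lt_one i).le)).le]
    norm_num
  have hw1 : ww z j ≤ 1 := by
    refine Real.rpow_le_one (div_pos hx hrp).le ?_ (by norm_num)
    rw [div_le_one hrp]
    have := tn_le (z := z) hr1
    linarith
  have hws : ww z (j + 1) ^ 16 = ww z j ^ 16 * (1 + st j z) := by
    rw [hw16, hw16]
    unfold st
    have e1 := hrp.ne'
    have e2 := hrp'.ne'
    have e3 : 1 + (rad (j + 1) - rad j) * nm z / (1 - rad (j + 1) * nm z) =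
        (1 - rad j * nm z) / (1 - rad (j + 1) * nm z) := by
      rw [eq_div_iff e2, add_mul, div_mul_cancel₀ _ e2]; ring
    rw [e3, div_mul_div_cancel₀ e1]
  have hlow : ww z j * (1 + st j z / 32) ≤ ww z (j + 1) := by
    refine le_of_pow_le_pow_left₀ (n := 16) (by norm_num) (hw0 _).le ?_
    rw [mul_pow, hws]
    exact mul_le_mul_of_nonneg_left (num16 hs0 hs1) (pow_nonneg (hw0 j).le 16)
  refine ⟨hs0, hs1, hw0 j, hw1, hws, ?_, ?_, ?_⟩
  · refine le_of_pow_le_pow_left₀ (n := 16) (by norm_num) (by linarith [hw0 j]) ?_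
    rw [hws, mul_pow, mul_comm]
    refine mul_le_mul_of_nonneg_right ?_ (pow_nonneg (hw0 j).le 16)
    linarith
  · intro m hm
    obtain ⟨k, rfl⟩ : ∃ k, m = k + 1 := ⟨m - 1, by omega⟩
    have h3 : (1 + st j z / 32) ≤ (1 + st j z / 32) ^ (k + 1) :=
      le_self_pow₀ (by linarith) (by omega)
    calc ww z j ^ (k + 1) * (1 + st j z / 32) ≤
          ww z j ^ (k + 1) * (1 + st j z / 32) ^ (k + 1) :=
          mul_le_mul_of_nonneg_left h3 (pow_nonneg (hw0 j).le _)
      _ = (ww z j * (1 + st j z / 32)) ^ (k + 1) := (mul_pow _ _ _).symm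
      _ ≤ ww z (j + 1) ^ (k + 1) := by
          refine pow_le_pow_left₀ ?_ hlow _
          have := hw0 j
          positivity
  · intro ξ
    have h3 := (h2 z hz (rad j) hr0 hr1).1 ξ
    have h8 : Real.sqrt ((1 - nm z) / (1 - rad j * nm z)) = ww z j ^ 8 := by
      rw [← hw16, show ww z j ^ 16 = (ww z j ^ 8) ^ 2 by ring,
        Real.sqrt_sq (pow_nonneg (hw0 j).le 8)]
    rw [h8] at h3
    have h4 : Real.sqrt 2 ≤ 3 / 2 := by
      rw [Real.sqrt_le_left (by norm_num)]; norm_num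
    have h6 : 0 ≤ ww z j ^ 8 * len z ξ :=
      mul_nonneg (pow_nonneg (hw0 j).le 8) (len_nonneg _ _)
    rw [len_smul hr0]
    have h7 := len_nonneg (rad j • z) ξ
    have h9 : rad j * len (rad j • z) ξ ≤ len (rad j • z) ξ := by nlinarith
    calc rad j * len (rad j • z) ξ ≤ len (rad j • z) ξ := h9
      _ ≤ Real.sqrt 2 * ww z j ^ 8 * len z ξ := h3
      _ = Real.sqrt 2 * (ww z j ^ 8 * len z ξ) := by ring
      _ ≤ 3 / 2 * (ww z j ^ 8 * len z ξ) := mul_le_mul_of_nonneg_right h4 h6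
      _ = 3 / 2 * ww z j ^ 8 * len z ξ := by ring

end Pool.Agent.N293.RL
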